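import Mathlib
import Pool.Agent.H.MP_3e3c2c_co.D

namespace Pool.Agent.Results.MP_6df53f_co.Counter

variable {n r : ℕ}

/-- the edges of `G` that have colour `c` -/
def cls (G : SimpleGraph (Fin n)) (χ : Sym2 (Fin n) → Fin r) (c : Fin r) : SimpleGraph (Fin n) :=
  G ⊓ SimpleGraph.fromEdgeSet {e | χ e = c}

/-- `S` is the vertex set of a monochromatic cycle: empty, a vertex, an edge, or a proper cycle -/
def MonoCycle (G : SimpleGraph (Fin n)) (χ : Sym2 (Fin n) → Fin r) (S : Set (Fin n)) : Prop :=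
  S = ∅ ∨ (∃ v, S = {v}) ∨ (∃ v w, G.Adj v w ∧ S = {v, w}) ∨
    ∃ (c : Fin r) (v : Fin n) (p : (cls G χ c).Walk v v), p.IsCycle ∧ S = {x | x ∈ p.support}

/-- `cp(G)`: the least number of disjoint monochromatic cycles covering all vertices -/
noncomputable def cp (G : SimpleGraph (Fin n)) (χ : Sym2 (Fin n) → Fin r) : ℕ :=
  sInf {k | ∃ T : Fin k → Set (Fin n), (∀ i, MonoCycle G χ (T i)) ∧
    Pairwise (fun i j => Disjoint (T i) (T j)) ∧ ∀ v, ∃ i, v ∈ T i}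

/-- `cp_r(δ)` -/
noncomputable def cpr (r : ℕ) (δ : ℝ) : ℕ∞ :=
  Filter.limsup (fun n : ℕ => ⨆ (G : SimpleGraph (Fin n)) (χ : Sym2 (Fin n) → Fin r)
    (_ : ∀ v, (1 - δ) * n ≤ (G.neighborSet v).ncard), (cp G χ : ℕ∞)) Filter.atTop

theorem result (K : ℝ) (hK : 0 < K) : ∃ (r : ℕ) (δ : ℝ), 2 ≤ r ∧ 0 < δ ∧ δ < 1 / 2 ∧
    ∃ t : ℕ, K * r * ⌈r / Real.log (1 / δ)⌉ < t ∧ (t : ℕ∞) ≤ cpr r δ := by
  obtain ⟨r, δ, t, hr, h0, h1, ht, H⟩ := Pool.Agent.H.MP_3e3c2c_co.main K hK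
  refine ⟨r, δ, hr, h0, h1, t + 1, by push_cast; linarith, ?_⟩
  refine Filter.le_limsup_of_frequently_le (Filter.frequently_atTop.2 fun N => ?_)
  obtain ⟨n, hn, G, χ, hd, hc⟩ := H N
  refine ⟨n, hn, le_iSup_of_le G (le_iSup_of_le χ (le_iSup_of_le hd ?_))⟩
  refine Nat.cast_le.2 (le_csInf ⟨n, fun i => {i}, fun i => Or.inr (Or.inl ⟨i, rfl⟩),
    fun i j h => Set.disjoint_singleton.2 h, fun x => ⟨x, rfl⟩⟩ ?_)
  rintro k ⟨T, hT, -, hcov⟩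
  refine hc k T (fun i => ?_) hcov
  rcases hT i with e | ⟨v, e⟩ | ⟨v, w, h, e⟩ | ⟨c, v, p, -, e⟩ <;> rw [e]
  · exact ⟨⟨0, by omega⟩, fun _ h => h.elim⟩
  · exact ⟨⟨0, by omega⟩, fun x hx y hy => by rw [hx, hy]⟩
  · have a : (Pool.Agent.H.MP_3e3c2c_co.colG G χ (χ s(v, w))).Adj v w := ⟨h, rfl⟩
    refine ⟨χ s(v, w), ?_⟩
    rintro x (rfl | rfl) y (rfl | rfl)
    exacts [.refl _, a.reachable, a.symm.reachable, .refl _]
  · refine ⟨c, fun x hx y hy => ?_⟩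
    exact SimpleGraph.Reachable.mono (G := cls G χ c) (fun a b h => ⟨h.1, h.2.1⟩)
      ((p.takeUntil x hx).reachable.symm.trans (p.takeUntil y hy).reachable)

end Pool.Agent.Results.MP_6df53f_co.Counter
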